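import Pool.Agent.Helper61.TR.Fix2
import Pool.Agent.Helper38.TR.Blk

/-!
Project TR, block TR-7b: `fix_of_kill` (from `fix_of_kill_of` and the existence of the blocks).
-/

set_option linter.unusedSectionVars false

open Matrix

namespace MH

variable {n : Type*} [Fintype n] [DecidableEq n] {m : ℤ} {Q : Matrix n n ℚ} {S : Finset ℤ} {P : ℤ → Matrix n n ℂ}

theorem fix_of_kill (H : IsHS m Q S P) (hSA : SelfAdj Q P) {a b : ℕ} {t : (Fin a ⊕ Fin b → n) → ℂ}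
    (hk : ∀ X : Matrix n n ℂ, (∀ x ∈ EC P, X * x = x * X) → Xᵀ * toC Q + toC Q * X = 0 → dL a b t X = 0)
    (hm : m ≠ 0 → dL a b t 1 = 0) {g : GL n ℂ} (hg : InG m Q P (g : Matrix n n ℂ)) :
    actF (slot a b (g : Matrix n n ℂ) ((g⁻¹ : GL n ℂ) : Matrix n n ℂ)) t = t := by
  obtain ⟨k, e, h1, h2, h3, _, _⟩ := exists_blocks H hSA
  exact fix_of_kill_of H hSA ⟨k, e, h1, h2, h3⟩ hk hm hg

end MH
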