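import Pool.Agent.Helper12.TR.Fix
import Pool.Agent.Helper54.TR.EC
import Pool.Agent.Helper61.EL.Fix

/-!
Project TR, block TR-7b: from the Lie algebra to the group, one tensor at a time: an element `g` of the largest
possible group is `z` times the product of the elements `z⁻¹ g e + (1 - e)`, `e` in the set of blocks.
-/

set_option linter.unusedSectionVars false
set_option linter.unusedVariables false

open Matrix

namespace MH

variable {n : Type*} [Fintype n] [DecidableEq n]

/-- an idempotent of rank `r` is the product of an `n × r` and an `r × n` matrix -/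
theorem exists_fac61 {e : Matrix n n ℂ} (hee : e * e = e) :
    ∃ (A : Matrix n (Fin e.rank) ℂ) (B : Matrix (Fin e.rank) n ℂ), B * A = 1 ∧ A * B = e := by
  classical
  let b : Module.Basis (Fin e.rank) ℂ (LinearMap.range e.mulVecLin) := Module.finBasisOfFinrankEq ℂ _ rfl
  let φ : (n → ℂ) →ₗ[ℂ] LinearMap.range e.mulVecLin := e.mulVecLin.rangeRestrict
  let ψ : LinearMap.range e.mulVecLin →ₗ[ℂ] (n → ℂ) := (LinearMap.range e.mulVecLin).subtype
  have h1 : ψ ∘ₗ φ = e.mulVecLin := rfl
  have h2 : φ ∘ₗ ψ = LinearMap.id := by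
    ext1 ⟨v, hv⟩
    obtain ⟨w, rfl⟩ := hv
    apply Subtype.ext
    show e.mulVecLin (e.mulVecLin w) = e.mulVecLin w
    rw [Matrix.mulVecLin_apply, Matrix.mulVecLin_apply, Matrix.mulVec_mulVec, hee]
  refine ⟨LinearMap.toMatrix' (ψ ∘ₗ b.equivFun.symm.toLinearMap), LinearMap.toMatrix' (b.equivFun.toLinearMap ∘ₗ φ), ?_, ?_⟩
  · rw [← LinearMap.toMatrix'_comp]
    have h3 : (b.equivFun.toLinearMap ∘ₗ φ) ∘ₗ ψ ∘ₗ b.equivFun.symm.toLinearMap = LinearMap.id := by
      calc (b.equivFun.toLinearMap ∘ₗ φ) ∘ₗ ψ ∘ₗ b.equivFun.symm.toLinearMap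
          = b.equivFun.toLinearMap ∘ₗ (φ ∘ₗ ψ) ∘ₗ b.equivFun.symm.toLinearMap := rfl
        _ = LinearMap.id := by
          rw [h2, LinearMap.id_comp]
          ext1
          simp
    rw [h3, LinearMap.toMatrix'_id]
  · rw [← LinearMap.toMatrix'_comp]
    have h3 : (ψ ∘ₗ b.equivFun.symm.toLinearMap) ∘ₗ b.equivFun.toLinearMap ∘ₗ φ = e.mulVecLin := by
      calc (ψ ∘ₗ b.equivFun.symm.toLinearMap) ∘ₗ b.equivFun.toLinearMap ∘ₗ φ
          = ψ ∘ₗ (b.equivFun.symm.toLinearMap ∘ₗ b.equivFun.toLinearMap) ∘ₗ φ := rfl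
        _ = ψ ∘ₗ φ := by
          have : b.equivFun.symm.toLinearMap ∘ₗ b.equivFun.toLinearMap = LinearMap.id := by
            apply LinearMap.ext
            intro x
            exact b.equivFun.symm_apply_apply x
          rw [this, LinearMap.id_comp]
        _ = e.mulVecLin := h1
    rw [h3, ← Matrix.toLin'_apply', LinearMap.toMatrix'_toLin']

theorem det_smul_idem61 {e : Matrix n n ℂ} (hee : e * e = e) (c : ℂ) : (c • e + (1 - e)).det = c ^ e.rank := by
  obtain ⟨A, B, h1, h2⟩ := exists_fac61 hee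
  have h3 : c • e + (1 - e) = 1 + ((c - 1) • A) * B := by
    rw [Matrix.smul_mul, h2, sub_smul, one_smul]
    abel
  have h4 : B * ((c - 1) • A) = (c - 1) • (1 : Matrix (Fin e.rank) (Fin e.rank) ℂ) := by
    rw [Matrix.mul_smul, h1]
  have h5 : (1 : Matrix (Fin e.rank) (Fin e.rank) ℂ) + (c - 1) • 1 = c • 1 := by
    rw [sub_smul, one_smul]
    abel
  rw [h3, Matrix.det_one_add_mul_comm, h4, h5, Matrix.det_smul, Matrix.det_one, mul_one, Fintype.card_fin]

variable {m : ℤ} {Q : Matrix n n ℚ} {S : Finset ℤ} {P : ℤ → Matrix n n ℂ} {Γ : Subgroup (GL n ℂ)}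

theorem fix_of_kill_of (H : IsHS m Q S P) (hSA : SelfAdj Q P)
    (hB : ∃ (k : ℕ) (e : Fin k → Matrix n n ℂ), (∀ i, IsBlock P (e i)) ∧ (∀ i j, i ≠ j → e i * e j = 0) ∧ ∑ i, e i = 1)
    {a b : ℕ} {t : (Fin a ⊕ Fin b → n) → ℂ}
    (hk : ∀ X : Matrix n n ℂ, (∀ x ∈ EC P, X * x = x * X) → Xᵀ * toC Q + toC Q * X = 0 → dL a b t X = 0)
    (hm : m ≠ 0 → dL a b t 1 = 0) {g : GL n ℂ} (hg : InG m Q P (g : Matrix n n ℂ)) :
    actF (slot a b (g : Matrix n n ℂ) ((g⁻¹ : GL n ℂ) : Matrix n n ℂ)) t = t := by
  classical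
  apply fix_of_mem61
  by_cases hn : IsEmpty n
  · have h1 : (g : Matrix n n ℂ) = 1 := by
      ext i
      exact hn.elim i
    rw [h1]
    exact Submonoid.one_mem _
  rw [not_isEmpty_iff] at hn
  obtain ⟨hgc, z, hz1, hgz, hgd⟩ := hg
  have hd : (toC Q).det ≠ 0 := by
    obtain ⟨B, Bi, Qi, _, _, h3, _, _⟩ := H.exists_basis
    intro h0
    have := congrArg Matrix.det h3
    rw [Matrix.det_mul, h0, zero_mul, Matrix.det_one] at this
    exact zero_ne_one this
  have hgdet : (g : Matrix n n ℂ).det ≠ 0 := by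
    have h1 : (g : Matrix n n ℂ) * ((g⁻¹ : GL n ℂ) : Matrix n n ℂ) = 1 := by
      rw [← Units.val_mul, mul_inv_cancel, Units.val_one]
    intro h0
    have := congrArg Matrix.det h1
    rw [Matrix.det_mul, h0, zero_mul, Matrix.det_one] at this
    exact zero_ne_one this
  have hz0 : z ≠ 0 := by
    rintro rfl
    have := congrArg Matrix.det hgz
    rw [Matrix.det_mul, Matrix.det_mul, Matrix.det_transpose, Matrix.det_smul] at this
    rw [zero_pow two_ne_zero, zero_pow Fintype.card_ne_zero, zero_mul] at this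
    exact mul_ne_zero (mul_ne_zero hgdet hd) hgdet this
  obtain ⟨k, e, he, hef, hsum⟩ := hB
  set G : Matrix n n ℂ := (g : Matrix n n ℂ) with hG
  let f : Fin k → Matrix n n ℂ := fun i => z⁻¹ • (G * e i) + (1 - e i)
  have hcomm : ∀ i, G * e i = e i * G := fun i => hgc _ (he i).mem
  -- each factor fixes the tensor
  have hf : ∀ i, f i ∈ Fixm61 a b t := by
    intro i
    have hee := (he i).idem
    have hadj : (e i)ᵀ * toC Q = toC Q * e i := EC_adj hSA (he i).mem
    have hdet : (f i).det = 1 := by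
      have h1 : f i = (G * e i + (1 - e i)) * (z⁻¹ • e i + (1 - e i)) := by
        simp only [f, add_mul, mul_add, mul_sub, sub_mul, mul_one, one_mul, Matrix.mul_smul, mul_assoc, hee, sub_self,
          add_zero]
        abel
      rw [h1, Matrix.det_mul, hgd _ (he i), det_smul_idem61 hee, inv_pow, mul_inv_cancel₀ (pow_ne_zero _ hz0)]
    have h1 : (f i)ᵀ * toC Q * f i = toC Q := by
      have a1 : (G * e i)ᵀ * toC Q = Gᵀ * toC Q * e i := by
        rw [hcomm i, Matrix.transpose_mul, mul_assoc, hadj, mul_assoc]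
      have a2 : (1 - e i)ᵀ * toC Q = toC Q * (1 - e i) := by
        rw [Matrix.transpose_sub, Matrix.transpose_one, sub_mul, one_mul, hadj, mul_sub, mul_one]
      have a3 : (f i)ᵀ * toC Q = z⁻¹ • (Gᵀ * toC Q * e i) + toC Q * (1 - e i) := by
        simp only [f]
        rw [Matrix.transpose_add, Matrix.transpose_smul, add_mul, Matrix.smul_mul, a1, a2]
      have a4 : e i * f i = z⁻¹ • (G * e i) := by
        simp only [f, mul_add, mul_sub, mul_one, Matrix.mul_smul, hee, sub_self, add_zero]
        rw [← mul_assoc, ← hcomm i, mul_assoc, hee]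
      have a5 : (1 - e i) * f i = 1 - e i := by
        rw [sub_mul, one_mul, a4]
        simp only [f]
        abel
      rw [a3, add_mul, Matrix.smul_mul, mul_assoc (Gᵀ * toC Q) (e i) (f i), a4, mul_assoc (toC Q) (1 - e i) (f i), a5,
        Matrix.mul_smul, ← mul_assoc, hgz, Matrix.smul_mul, smul_smul, smul_smul]
      have a6 : z⁻¹ * z⁻¹ * z ^ 2 = 1 := by field_simp
      rw [a6, one_smul, mul_sub, mul_one]
      abel
    have h2 : f i * e i = e i * f i := by
      simp only [f, mul_add, add_mul, mul_sub, sub_mul, mul_one, one_mul, Matrix.mul_smul, Matrix.smul_mul, hee]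
      rw [← mul_assoc (e i), ← hcomm i]
    have h3 : f i * (1 - e i) = 1 - e i := by
      simp only [f, mul_sub, add_mul, sub_mul, mul_one, one_mul, Matrix.smul_mul, mul_assoc, hee]
      abel
    let gi : GL n ℂ := Matrix.GeneralLinearGroup.mkOfDetNeZero (f i) (by rw [hdet]; exact one_ne_zero)
    have hgi : (gi : Matrix n n ℂ) = f i := rfl
    refine ⟨((gi⁻¹ : GL n ℂ) : Matrix n n ℂ), ?_, ?_⟩
    · rw [← hgi, ← Units.val_mul, mul_inv_cancel, Units.val_one]
    · have h4 := so_fix_block (toC Q) H.Q_symm hd hee hadj (t := t) (a := a) (b := b) (fun X hX hs => by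
        refine hk X (fun x hx => ?_) hs
        have b1 : X * e i = X := by
          conv_lhs => rw [← hX]
          rw [mul_assoc, hee, hX]
        have b2 : e i * X = X := by
          conv_lhs => rw [← hX]
          rw [← mul_assoc, ← mul_assoc, hee, hX]
        obtain ⟨c, hc⟩ := (he i).min x hx
        have b3 : x * X = c • X := by
          rw [← b2, ← mul_assoc, hc, Matrix.smul_mul]
        have b4 : X * x = c • X := by
          rw [← b1, mul_assoc, EC_comm H hSA (he i).mem hx, hc, Matrix.mul_smul]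
        rw [b3, b4]) (g := gi) (by rw [hgi]; exact h1) (by rw [hgi]; exact h2) (by rw [hgi]; exact h3)
          (by rw [hgi]; exact hdet)
      rw [hgi] at h4
      exact h4
  -- the scalars
  have hzf : z • (1 : Matrix n n ℂ) ∈ Fixm61 a b t := by
    by_cases hm0 : m = 0
    · rw [hz1 hm0, one_smul]
      exact Submonoid.one_mem _
    · let gz : GL n ℂ := Matrix.GeneralLinearGroup.mkOfDetNeZero (z • (1 : Matrix n n ℂ)) (by
        rw [Matrix.det_smul, Matrix.det_one, mul_one]
        exact pow_ne_zero _ hz0)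
      have hgz' : (gz : Matrix n n ℂ) = z • 1 := rfl
      refine ⟨((gz⁻¹ : GL n ℂ) : Matrix n n ℂ), ?_, ?_⟩
      · rw [← hgz', ← Units.val_mul, mul_inv_cancel, Units.val_one]
      · have h4 := scal_fix (hm hm0) hgz'
        rw [hgz'] at h4
        exact h4
  -- the product
  have hprod : ∀ l : List (Fin k), l.Nodup → ∀ j, ((l.map f).prod) * e j = if j ∈ l then z⁻¹ • (G * e j) else e j := by
    intro l
    induction l with
    | nil => intro _ j; simp
    | cons i l ih =>
      intro hl j
      rw [List.nodup_cons] at hl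
      have h5 : f i * e j = if j = i then z⁻¹ • (G * e j) else e j := by
        by_cases hij : j = i
        · subst hij
          rw [if_pos rfl]
          simp only [f, add_mul, sub_mul, one_mul, Matrix.smul_mul, mul_assoc, (he j).idem, sub_self, add_zero]
        · rw [if_neg hij]
          simp only [f, add_mul, sub_mul, one_mul, Matrix.smul_mul, mul_assoc, hef i j (Ne.symm hij), mul_zero, smul_zero,
            sub_zero, zero_add]
      rw [List.map_cons, List.prod_cons, mul_assoc, ih hl.2 j]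
      by_cases hjl : j ∈ l
      · have hji : j ≠ i := fun h => hl.1 (h ▸ hjl)
        rw [if_pos hjl, if_pos (List.mem_cons_of_mem _ hjl), hcomm j, Matrix.mul_smul, ← mul_assoc, h5, if_neg hji]
      · rw [if_neg hjl, h5]
        simp only [List.mem_cons, hjl, or_false]
  have hall : (((List.finRange k).map f).prod) = z⁻¹ • G := by
    have h6 := fun j => hprod (List.finRange k) (List.nodup_finRange k) j
    calc (((List.finRange k).map f).prod) = (((List.finRange k).map f).prod) * ∑ j, e j := by rw [hsum, mul_one]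
      _ = ∑ j, z⁻¹ • (G * e j) := by
        rw [Finset.mul_sum]
        exact Finset.sum_congr rfl fun j _ => by rw [h6 j, if_pos (List.mem_finRange j)]
      _ = z⁻¹ • G := by rw [← Finset.smul_sum, ← Finset.mul_sum, hsum, mul_one]
  have hfin : G = (z • (1 : Matrix n n ℂ)) * (((List.finRange k).map f).prod) := by
    rw [hall, Matrix.smul_mul, one_mul, smul_smul, mul_inv_cancel₀ hz0, one_smul]
  rw [hfin]
  refine Submonoid.mul_mem _ hzf (Submonoid.list_prod_mem _ fun x hx => ?_)
  obtain ⟨i, _, rfl⟩ := List.mem_map.1 hx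
  exact hf i

end MH
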